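import Pool.Agent.U463.CB.Fin
import Pool.Agent.U463.CB.Iter

/-!
# Equivalent forms of Q1: convex Bohr sets, proper coset progressions, iterated sumsets

For a set `S ⊆ ℤ/N` and `ℓ ≥ log 2` consider the properties

* `HasBohr κ C c ℓ S`: `S` contains a Bohr set with at most `C ℓ` frequencies and radius at least `c / ℓ ^ κ`;
* `HasConvex C ℓ S`: `S` contains a convex Bohr set `{x : (γ_k x / N)_k ∈ K mod 1}` of dimension at most `C ℓ`, with a
  symmetric convex set `K ⊆ [-C ℓ, C ℓ] ^ d`, and of density at least `exp (- C ℓ log (2 + ℓ))`;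
* `HasProg C ℓ S`: `S` contains a proper coset progression of dimension at most `C ℓ` and of density at least
  `exp (- C ℓ log (2 + ℓ))`;
* `HasIterated m C ℓ S`: `S` contains a set `K X - K X` with `K ≥ (2 + ℓ) ^ m`, where `X ⊆ ℤ/N` has density at least
  `exp (- C ℓ log (2 + ℓ))`.

The theorem says that the four properties are equivalent up to the value of the constants, whatever `κ ≥ 1` and
`m ≥ 10` are. Therefore Q1 is equivalent to each of the statements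

* `Q1Radius κ`, for every `κ ≥ 1`: Q1 with a radius `ε ≥ c / (log (1/α)) ^ κ` only;
* `Q1Convex`: `2A - 2A` contains a convex Bohr set of dimension `O(ℓ)` and of density `exp (- O(ℓ log (2 + ℓ)))`;
* `Q1Prog`: `2A - 2A` contains a proper coset progression of dimension `O(ℓ)` and of density
  `exp (- O(ℓ log (2 + ℓ)))`;
* `Q1Iterated m`, for every `m ≥ 10`: `2A - 2A` contains `K X - K X` for some `K ≥ (2 + ℓ) ^ m` and some `X` of density
  `exp (- O(ℓ log (2 + ℓ)))`,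

where `ℓ = log (1/α)`. The last form is purely combinatorial; it is the form in which almost-periodicity methods
(Croot-Sisask, Sanders) produce Bohr sets, and says which density is needed there.

Starting library: `TH858.CB.main` (a convex Bohr set contains a Bohr set of small dimension), `TH858.GP.coset` (the
same for proper coset progressions), `H112R2/Lattice.lean` and `H112R2/John.lean` (a Bohr set as a convex coset
progression; the discrete John theorem), and project MSB (`N173/BG` and the files imported in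
`Results/MP_169871_nt/ManySummands.lean`; Bohr sets in `K X - K X`), `TH858.GP.dense`.
-/

set_option autoImplicit false

namespace Pool.Agent.Results.MP_169871_nt.EquivalentForms

open Pool.Agent.U463.CB

/-- The Bohr set `B(Γ, ε) = {x ∈ ℤ/N : ‖γ x / N‖ ≤ ε for all γ ∈ Γ}`; the norm is the distance to the nearest
integer. -/
def bohr {N : ℕ} (Γ : Finset (ZMod N)) (ε : ℝ) : Set (ZMod N) :=
  {x | ∀ γ ∈ Γ, |((γ * x).val : ℝ) / (N : ℝ) - ((round (((γ * x).val : ℝ) / (N : ℝ)) : ℤ) : ℝ)| ≤ ε}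

/-- The convex Bohr set of all `x ∈ ℤ/N` for which the vector `(γ_k x / N)_k` belongs to `K` modulo one. -/
def convexBohr {N d : ℕ} (γ : Fin d → ZMod N) (K : Set (Fin d → ℝ)) : Set (ZMod N) :=
  {x | ∃ y ∈ K, ∀ k, ∃ z : ℤ, y k = ((γ k * x).val : ℝ) / (N : ℝ) + z}

/-- The coset progression `H + {n_1 a_1 + … + n_d a_d : |n_i| ≤ L_i}`. -/
def cosetProg {N d : ℕ} (H : AddSubgroup (ZMod N)) (a : Fin d → ZMod N) (L : Fin d → ℕ) : Set (ZMod N) :=
  {x | ∃ h ∈ H, ∃ n : Fin d → ℤ, (∀ i, |n i| ≤ L i) ∧ x = h + ∑ i, (n i : ZMod N) * a i}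

/-- The coset progression is proper: different coefficients give different cosets of `H`. -/
def Proper {N d : ℕ} (H : AddSubgroup (ZMod N)) (a : Fin d → ZMod N) (L : Fin d → ℕ) : Prop :=
  ∀ n n' : Fin d → ℤ, (∀ i, |n i| ≤ L i) → (∀ i, |n' i| ≤ L i) →
    (∑ i, (n i : ZMod N) * a i) - (∑ i, (n' i : ZMod N) * a i) ∈ H → n = n'

/-- The set `2A - 2A`. -/
def twoAMinusTwoA {N : ℕ} (A : Finset (ZMod N)) : Set (ZMod N) :=
  {x | ∃ a₁ ∈ A, ∃ a₂ ∈ A, ∃ a₃ ∈ A, ∃ a₄ ∈ A, x = a₁ + a₂ - a₃ - a₄}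

/-- The set `K X - K X` of the differences of two sums of `K` elements of `X`. -/
def kXMinusKX {N : ℕ} (K : ℕ) (X : Set (ZMod N)) : Set (ZMod N) :=
  {x | ∃ a b : Fin K → ZMod N, (∀ i, a i ∈ X) ∧ (∀ i, b i ∈ X) ∧ x = ∑ i, a i - ∑ i, b i}

/-- The logarithm `log (N / |B|) = log (1/β)`, where `β = |B| / N` is the density of `B ⊆ ℤ/N`. -/
noncomputable def logDens {N : ℕ} (B : Set (ZMod N)) : ℝ := Real.log ((N : ℝ) / (B.ncard : ℝ))

/-- `S` contains a Bohr set with at most `C ℓ` frequencies and of radius at least `c / ℓ ^ κ`. -/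
def HasBohr {N : ℕ} (κ : ℕ) (C c l : ℝ) (S : Set (ZMod N)) : Prop :=
  ∃ (Γ : Finset (ZMod N)) (ε : ℝ), 0 < ε ∧ (Γ.card : ℝ) ≤ C * l ∧ c / l ^ κ ≤ ε ∧ bohr Γ ε ⊆ S

/-- `S` contains a convex Bohr set of dimension at most `C ℓ`, with a symmetric convex set `K ⊆ [-C ℓ, C ℓ] ^ d`, and
of density at least `exp (- C ℓ log (2 + ℓ))`. -/
def HasConvex {N : ℕ} (C l : ℝ) (S : Set (ZMod N)) : Prop :=
  ∃ (d : ℕ) (γ : Fin d → ZMod N) (K : Set (Fin d → ℝ)), Convex ℝ K ∧ (∀ y ∈ K, -y ∈ K) ∧ K.Nonempty ∧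
    (d : ℝ) ≤ C * l ∧ (∀ y ∈ K, ∀ k, |y k| ≤ C * l) ∧
    logDens (convexBohr γ K) ≤ C * l * Real.log (2 + l) ∧ convexBohr γ K ⊆ S

/-- `S` contains a proper coset progression of dimension at most `C ℓ` and of density at least
`exp (- C ℓ log (2 + ℓ))`. -/
def HasProg {N : ℕ} (C l : ℝ) (S : Set (ZMod N)) : Prop :=
  ∃ (d : ℕ) (H : AddSubgroup (ZMod N)) (a : Fin d → ZMod N) (L : Fin d → ℕ), Proper H a L ∧
    (d : ℝ) ≤ C * l ∧ logDens (cosetProg H a L) ≤ C * l * Real.log (2 + l) ∧ cosetProg H a L ⊆ S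

/-- `S` contains a set `K X - K X` with `K ≥ (2 + ℓ) ^ m` and a nonempty set `X ⊆ ℤ/N` of density at least
`exp (- C ℓ log (2 + ℓ))`. -/
def HasIterated {N : ℕ} (m : ℕ) (C l : ℝ) (S : Set (ZMod N)) : Prop :=
  ∃ (X : Set (ZMod N)) (K : ℕ), X.Nonempty ∧ logDens X ≤ C * l * Real.log (2 + l) ∧ (2 + l) ^ m ≤ (K : ℝ) ∧
    kXMinusKX K X ⊆ S

/-- Question Q1 of the problem (with the definitions `bohr` and `twoAMinusTwoA` it is the frozen statement). -/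
def Q1 : Prop :=
  ∃ C : ℝ, 0 < C ∧ ∃ c : ℝ, 0 < c ∧ ∀ N : ℕ, 0 < N → ∀ A : Finset (ZMod N), A.Nonempty →
    (A.card : ℝ) / (N : ℝ) ≤ 1 / 2 →
    ∃ Γ : Finset (ZMod N), ∃ ε : ℝ, 0 < ε ∧ (Γ.card : ℝ) ≤ C * Real.log ((N : ℝ) / (A.card : ℝ)) ∧
      c / Real.log ((N : ℝ) / (A.card : ℝ)) ≤ ε ∧ bohr Γ ε ⊆ twoAMinusTwoA A

/-- Q1 with the radius `c / (log (1/α)) ^ κ`. -/
def Q1Radius (κ : ℕ) : Prop :=
  ∃ C : ℝ, 0 < C ∧ ∃ c : ℝ, 0 < c ∧ ∀ N : ℕ, 0 < N → ∀ A : Finset (ZMod N), A.Nonempty →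
    (A.card : ℝ) / (N : ℝ) ≤ 1 / 2 → HasBohr κ C c (Real.log ((N : ℝ) / (A.card : ℝ))) (twoAMinusTwoA A)

/-- Q1 for convex Bohr sets. -/
def Q1Convex : Prop :=
  ∃ C : ℝ, 0 < C ∧ ∀ N : ℕ, 0 < N → ∀ A : Finset (ZMod N), A.Nonempty →
    (A.card : ℝ) / (N : ℝ) ≤ 1 / 2 → HasConvex C (Real.log ((N : ℝ) / (A.card : ℝ))) (twoAMinusTwoA A)

/-- Q1 for proper coset progressions. -/
def Q1Prog : Prop :=
  ∃ C : ℝ, 0 < C ∧ ∀ N : ℕ, 0 < N → ∀ A : Finset (ZMod N), A.Nonempty →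
    (A.card : ℝ) / (N : ℝ) ≤ 1 / 2 → HasProg C (Real.log ((N : ℝ) / (A.card : ℝ))) (twoAMinusTwoA A)

/-- Q1 for iterated sumsets. -/
def Q1Iterated (m : ℕ) : Prop :=
  ∃ C : ℝ, 0 < C ∧ ∀ N : ℕ, 0 < N → ∀ A : Finset (ZMod N), A.Nonempty →
    (A.card : ℝ) / (N : ℝ) ≤ 1 / 2 → HasIterated m C (Real.log ((N : ℝ) / (A.card : ℝ))) (twoAMinusTwoA A)

theorem of_convex {N : ℕ} (hN : 0 < N) (C l : ℝ) (hC : 0 < C) (hl : Real.log 2 ≤ l) (S : Set (ZMod N))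
    (h : HasConvex C l S) : HasBohr 1 (32 * C) (1 / (8 * (C + 3))) l S := by
  have : NeZero N := ⟨hN.ne'⟩
  obtain ⟨d, γ, K, h1, h2, h3, h4, h5, h6, h7⟩ := h
  obtain ⟨Γ, ε, g1, g2, g3, g4⟩ := size_to_radius γ K h1 h2 h3 C l hC hl h4 h5 h6
  exact ⟨Γ, ε, g1, g2, by rw [pow_one]; exact g3, fun x hx => h7 (g4 x fun g hg => hx g hg)⟩

theorem of_prog {N : ℕ} (hN : 0 < N) (C l : ℝ) (hC : 0 < C) (hl : Real.log 2 ≤ l) (S : Set (ZMod N))
    (h : HasProg C l S) : HasBohr 1 (185 * C + 2) (1 / (8 * (C + 3))) l S := by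
  have : NeZero N := ⟨hN.ne'⟩
  obtain ⟨d, H, a, L, h1, h2, h3, h4⟩ := h
  obtain ⟨Γ, ε, g1, g2, g3, g4⟩ := prog_to_bohr H a L h1 (cosetProg H a L) rfl C l hC hl h2 h3
  exact ⟨Γ, ε, g1, g2, by rw [pow_one]; exact g3, fun x hx => h4 (g4 x fun g hg => hx g hg)⟩

/-- the constant in the converse direction -/
noncomputable def bigC (κ : ℕ) (C c : ℝ) : ℝ :=
  (C + 1) * (κ + Real.log (8 + 1 / c) / Real.log 2 + 5 + 3 * (Real.log (1 + C) / Real.log 2))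

theorem bigC_bounds (κ : ℕ) (C c : ℝ) (hC : 0 < C) (hc : 0 < c) :
    C * (κ + Real.log (8 + 1 / c) / Real.log 2 + 5 + 3 * (Real.log (1 + C) / Real.log 2)) ≤ bigC κ C c ∧
    C * (κ + Real.log (8 + 1 / c) / Real.log 2) ≤ bigC κ C c ∧ C ≤ bigC κ C c ∧ 1 ≤ bigC κ C c := by
  have hlog2 := Real.log_two_gt_d9
  have h0 : 0 < Real.log 2 := by linarith
  have hc1 : 0 < 1 / c := by positivity
  have h1 : 0 ≤ Real.log (8 + 1 / c) / Real.log 2 := div_nonneg (Real.log_nonneg (by linarith)) h0.le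
  have h2 : 0 ≤ Real.log (1 + C) / Real.log 2 := div_nonneg (Real.log_nonneg (by linarith)) h0.le
  have h3 : (0:ℝ) ≤ κ := Nat.cast_nonneg _
  unfold bigC
  obtain ⟨u, hu⟩ : ∃ u, u = Real.log (8 + 1 / c) / Real.log 2 := ⟨_, rfl⟩
  obtain ⟨v, hv⟩ : ∃ v, v = Real.log (1 + C) / Real.log 2 := ⟨_, rfl⟩
  rw [← hu] at h1 ⊢
  rw [← hv] at h2 ⊢
  refine ⟨?_, ?_, ?_, ?_⟩
  · nlinarith
  · nlinarith [mul_nonneg hC.le h2]
  · nlinarith [mul_nonneg hC.le h2, mul_nonneg hC.le h1, mul_nonneg hC.le h3]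
  · nlinarith [mul_nonneg hC.le h2, mul_nonneg hC.le h1, mul_nonneg hC.le h3]

theorem of_bohr {N : ℕ} (hN : 0 < N) (κ : ℕ) (C c l : ℝ) (hC : 0 < C) (hc : 0 < c) (hl : Real.log 2 ≤ l)
    (S : Set (ZMod N)) (h : HasBohr κ C c l S) : HasConvex (bigC κ C c) l S ∧ HasProg (bigC κ C c) l S := by
  have : NeZero N := ⟨hN.ne'⟩
  have hlog2 := Real.log_two_gt_d9
  have hl0 : 0 < l := by linarith
  have h2l : 0 < Real.log (2 + l) := Real.log_pos (by linarith)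
  obtain ⟨Γ, ε, g1, g2, g3, g4⟩ := h
  have g5 : c / (2 + l) ^ κ ≤ ε := by
    refine le_trans ?_ g3
    apply div_le_div_of_nonneg_left hc.le (pow_pos hl0 κ)
    exact pow_le_pow_left₀ hl0.le (by linarith) κ
  obtain ⟨m, hm6, hmε, hmD⟩ := exists_radius κ c l ε hc hl0.le g5
  obtain ⟨b1, b2, b3, b4⟩ := bigC_bounds κ C c hC hc
  constructor
  · obtain ⟨d, γ, K, h1, h2, h3, h4, h5, h6, h7⟩ :=
      radius_to_size Γ C _ l ε m (by omega) hC hl0 g2 hmε hmD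
    refine ⟨d, γ, K, h1, h2, h3, h4.trans (mul_le_mul_of_nonneg_right b3 hl0.le), ?_, ?_,
      fun x hx => g4 fun g hg => h7 x hx g hg⟩
    · intro y hy k
      refine (h5 y hy k).trans ?_
      nlinarith
    · refine h6.trans ?_
      apply mul_le_mul_of_nonneg_right _ h2l.le
      exact mul_le_mul_of_nonneg_right b2 hl0.le
  · obtain ⟨H, k, a, L, h1, h2, h3, h4⟩ := bohr_to_prog Γ C _ l ε m hm6 hC hl0 g2 hmε hmD
    refine ⟨k, H, a, L, h1, h2.trans (mul_le_mul_of_nonneg_right b3 hl0.le), ?_,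
      fun x hx => g4 fun g hg => h4 x hx g hg⟩
    refine h3.trans ?_
    apply mul_le_mul_of_nonneg_right _ h2l.le
    exact mul_le_mul_of_nonneg_right b1 hl0.le

theorem convex_mono {N : ℕ} {C C' l : ℝ} (h : C ≤ C') (hl : 0 < l) {S : Set (ZMod N)} (hS : HasConvex C l S) :
    HasConvex C' l S := by
  obtain ⟨d, γ, K, h1, h2, h3, h4, h5, h6, h7⟩ := hS
  have h8 : 0 < Real.log (2 + l) := Real.log_pos (by linarith)
  have h9 := mul_le_mul_of_nonneg_right h hl.le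
  exact ⟨d, γ, K, h1, h2, h3, h4.trans h9, fun y hy k => (h5 y hy k).trans h9,
    h6.trans (mul_le_mul_of_nonneg_right h9 h8.le), h7⟩

theorem prog_mono {N : ℕ} {C C' l : ℝ} (h : C ≤ C') (hl : 0 < l) {S : Set (ZMod N)} (hS : HasProg C l S) :
    HasProg C' l S := by
  obtain ⟨d, H, a, L, h1, h2, h3, h4⟩ := hS
  have h8 : 0 < Real.log (2 + l) := Real.log_pos (by linarith)
  have h9 := mul_le_mul_of_nonneg_right h hl.le
  exact ⟨d, H, a, L, h1, h2.trans h9, h3.trans (mul_le_mul_of_nonneg_right h9 h8.le), h4⟩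

theorem iterated_mono {N : ℕ} {m : ℕ} {C C' l : ℝ} (h : C ≤ C') (hl : 0 < l) {S : Set (ZMod N)}
    (hS : HasIterated m C l S) : HasIterated m C' l S := by
  obtain ⟨X, K, h1, h2, h3, h4⟩ := hS
  have h8 : 0 < Real.log (2 + l) := Real.log_pos (by linarith)
  have h9 := mul_le_mul_of_nonneg_right h hl.le
  exact ⟨X, K, h1, h2.trans (mul_le_mul_of_nonneg_right h9 h8.le), h3, h4⟩

theorem iterated_of_bohr {N : ℕ} (hN : 0 < N) (κ m : ℕ) (C c l : ℝ) (hC : 0 < C) (hc : 0 < c)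
    (hl : Real.log 2 ≤ l) (S : Set (ZMod N)) (h : HasBohr κ C c l S) :
    HasIterated m (C * (((κ + m : ℕ) : ℝ) + Real.log (8 + 1 / (c / 4)) / Real.log 2)) l S := by
  have : NeZero N := ⟨hN.ne'⟩
  have hlog2 := Real.log_two_gt_d9
  have hl0 : 0 < l := by linarith
  obtain ⟨Γ, ε, g1, g2, g3, g4⟩ := h
  have g5 : c / (2 + l) ^ κ ≤ ε := by
    refine le_trans ?_ g3
    apply div_le_div_of_nonneg_left hc.le (pow_pos hl0 κ)
    exact pow_le_pow_left₀ hl0.le (by linarith) κ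
  have hP : (1:ℝ) ≤ (2 + l) ^ m := one_le_pow₀ (by linarith)
  have hPκ : (0:ℝ) < (2 + l) ^ κ := by positivity
  obtain ⟨K, hK⟩ : ∃ K : ℕ, K = ⌈(2 + l) ^ m⌉₊ := ⟨_, rfl⟩
  have hK1 : (2 + l) ^ m ≤ (K : ℝ) := by rw [hK]; exact Nat.le_ceil _
  have hK2 : (K : ℝ) ≤ 2 * (2 + l) ^ m := by
    have := Nat.ceil_lt_add_one (show 0 ≤ (2 + l) ^ m by positivity)
    rw [hK]; linarith
  have hK0 : (0:ℝ) < K := by linarith
  have g6 : c / 4 / (2 + l) ^ (κ + m) ≤ ε / (2 * K) := by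
    rw [le_div_iff₀ (by positivity)]
    refine le_trans ?_ g5
    rw [pow_add, div_div, div_mul_eq_mul_div, div_le_div_iff₀ (by positivity) hPκ]
    calc c * (2 * K) * (2 + l) ^ κ ≤ c * (2 * (2 * (2 + l) ^ m)) * (2 + l) ^ κ := by
          apply mul_le_mul_of_nonneg_right _ hPκ.le
          apply mul_le_mul_of_nonneg_left _ hc.le
          linarith
      _ = c * (4 * ((2 + l) ^ κ * (2 + l) ^ m)) := by ring
  obtain ⟨M, hM6, hMε, hMD⟩ := exists_radius (κ + m) (c / 4) l (ε / (2 * K)) (by positivity) hl0.le g6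
  obtain ⟨X, hX, h1, h2⟩ := bohr_to_iter Γ C _ l ε M K (by omega) hC hl0 g2 (by
    rw [← le_div_iff₀ (by positivity)]; exact hMε) hMD
  refine ⟨(X : Set (ZMod N)), K, hX, ?_, hK1, fun x hx => g4 fun g hg => h2 x hx g hg⟩
  unfold logDens
  rw [Set.ncard_coe_finset]
  exact h1

theorem of_iterated (m : ℕ) (hm : 10 ≤ m) (C : ℝ) (hC : 0 < C) : ∃ C' c' : ℝ, 0 < C' ∧ 0 < c' ∧
    ∀ N : ℕ, 0 < N → ∀ (S : Set (ZMod N)) (l : ℝ), Real.log 2 ≤ l → HasIterated m C l S → HasBohr 1 C' c' l S := by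
  obtain ⟨C₁, c₁, hC₁, hc₁, h⟩ := iter_to_bohr m hm C hC
  obtain ⟨-, -, -, b4⟩ := bigC_bounds 2 C₁ c₁ hC₁ hc₁
  have hb : 0 < bigC 2 C₁ c₁ := by linarith
  refine ⟨32 * bigC 2 C₁ c₁, 1 / (8 * (bigC 2 C₁ c₁ + 3)), by positivity, by positivity, fun N hN S l hl hS => ?_⟩
  have : NeZero N := ⟨hN.ne'⟩
  classical
  obtain ⟨X, K, h1, h2, h3, h4⟩ := hS
  have hXf : (X.toFinset : Set (ZMod N)) = X := Set.coe_toFinset X
  unfold logDens at h2
  rw [← hXf, Set.ncard_coe_finset] at h2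
  obtain ⟨Γ, ε, g1, g2, g3, g4⟩ := h N X.toFinset K l hl (by
    rw [← Finset.coe_nonempty, hXf]; exact h1) h2 h3
  refine of_convex hN _ l hb hl S (of_bohr hN 2 C₁ c₁ l hC₁ hc₁ hl S ⟨Γ, ε, g1, g2, g3, fun x hx => h4 ?_⟩).1
  obtain ⟨a, b, ha, hb', hx'⟩ := g4 x fun g hg => hx g hg
  refine ⟨a, b, fun i => ?_, fun i => ?_, hx'⟩
  · have := ha i
    rw [Set.mem_toFinset] at this
    exact this
  · have := hb' i
    rw [Set.mem_toFinset] at this
    exact this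

theorem log_dens_ge {N : ℕ} (hN : 0 < N) (A : Finset (ZMod N)) (hA : A.Nonempty)
    (hα : (A.card : ℝ) / (N : ℝ) ≤ 1 / 2) : Real.log 2 ≤ Real.log ((N : ℝ) / (A.card : ℝ)) := by
  have hNpos : (0 : ℝ) < N := by exact_mod_cast hN
  have hApos : (0 : ℝ) < A.card := by exact_mod_cast hA.card_pos
  have h2 : (2 : ℝ) ≤ (N : ℝ) / (A.card : ℝ) := by
    rw [div_le_iff₀ hNpos] at hα
    rw [le_div_iff₀ hApos]
    linarith
  exact Real.log_le_log (by norm_num) h2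

theorem q1_iff : Q1 ↔ Q1Radius 1 := by
  unfold Q1 Q1Radius HasBohr
  simp only [pow_one]

/-- **Equivalent forms of Q1.** (1) A set `S ⊆ ℤ/N` that contains a Bohr set with `O(ℓ)` frequencies and radius
`≥ c / ℓ ^ κ` contains a convex Bohr set and a proper coset progression of dimension `O(ℓ)` and of density at least
`exp (- O(ℓ log (2 + ℓ)))`, and a set `K X - K X` with `K ≥ (2 + ℓ) ^ m` and a set `X` of such a density. (2)-(4) A set
that contains such a convex Bohr set, or such a proper coset progression, or such a set `K X - K X` with `m ≥ 10`,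
contains a Bohr set with `O(ℓ)` frequencies and radius at least `1 / O(ℓ)`. (5)-(8) Hence Q1 is equivalent to Q1 with
the radius `c / ℓ ^ κ` for every `κ ≥ 1`, to Q1 for convex Bohr sets, to Q1 for proper coset progressions and, for every
`m ≥ 10`, to Q1 for iterated sumsets. -/
theorem result :
    (∀ (κ m : ℕ) (C c : ℝ), 0 < C → 0 < c → ∃ C' : ℝ, 0 < C' ∧ ∀ N : ℕ, 0 < N → ∀ (S : Set (ZMod N)) (l : ℝ),
      Real.log 2 ≤ l → HasBohr κ C c l S → HasConvex C' l S ∧ HasProg C' l S ∧ HasIterated m C' l S) ∧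
    (∀ (C : ℝ), 0 < C → ∀ N : ℕ, 0 < N → ∀ (S : Set (ZMod N)) (l : ℝ), Real.log 2 ≤ l →
      HasConvex C l S → HasBohr 1 (32 * C) (1 / (8 * (C + 3))) l S) ∧
    (∀ (C : ℝ), 0 < C → ∀ N : ℕ, 0 < N → ∀ (S : Set (ZMod N)) (l : ℝ), Real.log 2 ≤ l →
      HasProg C l S → HasBohr 1 (185 * C + 2) (1 / (8 * (C + 3))) l S) ∧
    (∀ m : ℕ, 10 ≤ m → ∀ C : ℝ, 0 < C → ∃ C' c' : ℝ, 0 < C' ∧ 0 < c' ∧ ∀ N : ℕ, 0 < N →
      ∀ (S : Set (ZMod N)) (l : ℝ), Real.log 2 ≤ l → HasIterated m C l S → HasBohr 1 C' c' l S) ∧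
    (∀ κ : ℕ, 1 ≤ κ → (Q1 ↔ Q1Radius κ)) ∧
    (Q1 ↔ Q1Convex) ∧
    (Q1 ↔ Q1Prog) ∧
    (∀ m : ℕ, 10 ≤ m → (Q1 ↔ Q1Iterated m)) := by
  have hb : ∀ κ : ℕ, Q1Radius κ → Q1Convex ∧ Q1Prog := by
    rintro κ ⟨C, hC, c, hc, h⟩
    obtain ⟨-, -, -, b4⟩ := bigC_bounds κ C c hC hc
    refine ⟨⟨bigC κ C c, by linarith, fun N hN A hA hα => ?_⟩, ⟨bigC κ C c, by linarith, fun N hN A hA hα => ?_⟩⟩
    · exact (of_bohr hN κ C c _ hC hc (log_dens_ge hN A hA hα) _ (h N hN A hA hα)).1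
    · exact (of_bohr hN κ C c _ hC hc (log_dens_ge hN A hA hα) _ (h N hN A hA hα)).2
  have hlog2 := Real.log_two_gt_d9
  have hu : ∀ c : ℝ, 0 < c → 0 < Real.log (8 + 1 / (c / 4)) / Real.log 2 := fun c hc => by
    have : 0 < 1 / (c / 4) := by positivity
    exact div_pos (Real.log_pos (by linarith)) (by linarith)
  have hc : Q1Convex → Q1 := by
    rintro ⟨C, hC, h⟩
    rw [q1_iff]
    exact ⟨32 * C, by positivity, 1 / (8 * (C + 3)), by positivity, fun N hN A hA hα =>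
      of_convex hN C _ hC (log_dens_ge hN A hA hα) _ (h N hN A hA hα)⟩
  have hp : Q1Prog → Q1 := by
    rintro ⟨C, hC, h⟩
    rw [q1_iff]
    exact ⟨185 * C + 2, by positivity, 1 / (8 * (C + 3)), by positivity, fun N hN A hA hα =>
      of_prog hN C _ hC (log_dens_ge hN A hA hα) _ (h N hN A hA hα)⟩
  refine ⟨fun κ m C c hC hc => ?_,
    fun C hC N hN S l hl h => of_convex hN C l hC hl S h, fun C hC N hN S l hl h => of_prog hN C l hC hl S h,
    fun m hm C hC => of_iterated m hm C hC,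
    fun κ hκ => ⟨fun h => ?_, fun h => hc (hb κ h).1⟩, ⟨fun h => (hb 1 (q1_iff.1 h)).1, hc⟩,
    ⟨fun h => (hb 1 (q1_iff.1 h)).2, hp⟩, fun m hm => ⟨fun h => ?_, fun h => ?_⟩⟩
  · obtain ⟨-, -, -, b4⟩ := bigC_bounds κ C c hC hc
    have hu' := hu c hc
    have e1 : 0 ≤ C * (((κ + m : ℕ) : ℝ) + Real.log (8 + 1 / (c / 4)) / Real.log 2) :=
      mul_nonneg hC.le (add_nonneg (Nat.cast_nonneg _) hu'.le)
    refine ⟨bigC κ C c + C * (((κ + m : ℕ) : ℝ) + Real.log (8 + 1 / (c / 4)) / Real.log 2), by linarith,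
      fun N hN S l hl h => ?_⟩
    have hl0 : 0 < l := by linarith
    obtain ⟨h1, h2⟩ := of_bohr hN κ C c l hC hc hl S h
    have h3 := iterated_of_bohr hN κ m C c l hC hc hl S h
    exact ⟨convex_mono (by linarith) hl0 h1, prog_mono (by linarith) hl0 h2, iterated_mono (by linarith) hl0 h3⟩
  · -- from the radius `c / ℓ` to the radius `c' / ℓ ^ κ`
    obtain ⟨C, hC, c, hc, h⟩ := h
    obtain ⟨n, rfl⟩ : ∃ n, κ = n + 1 := ⟨κ - 1, by omega⟩
    refine ⟨C, hC, c / 2 ^ n, by positivity, fun N hN A hA hα => ?_⟩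
    obtain ⟨Γ, ε, g1, g2, g3, g4⟩ := h N hN A hA hα
    have h2 := log_dens_ge hN A hA hα
    obtain ⟨l, hl⟩ : ∃ l : ℝ, l = Real.log ((N : ℝ) / (A.card : ℝ)) := ⟨_, rfl⟩
    rw [← hl] at g2 g3 h2 ⊢
    have hl0 : 0 < l := by linarith
    refine ⟨Γ, ε, g1, g2, le_trans ?_ g3, g4⟩
    have h3 : (1:ℝ) ≤ (2 * l) ^ n := one_le_pow₀ (by linarith)
    rw [div_div, pow_succ]
    apply div_le_div_of_nonneg_left hc.le hl0
    calc l = 1 * l := (one_mul l).symm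
      _ ≤ (2 * l) ^ n * l := mul_le_mul_of_nonneg_right h3 hl0.le
      _ = 2 ^ n * (l ^ n * l) := by rw [mul_pow]; ring
  · obtain ⟨C, hC, c, hc, h⟩ := q1_iff.1 h
    have hu' := hu c hc
    refine ⟨C * (((1 + m : ℕ) : ℝ) + Real.log (8 + 1 / (c / 4)) / Real.log 2),
      mul_pos hC (add_pos_of_nonneg_of_pos (Nat.cast_nonneg _) hu'), fun N hN A hA hα => ?_⟩
    exact iterated_of_bohr hN 1 m C c _ hC hc (log_dens_ge hN A hA hα) _ (h N hN A hA hα)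
  · obtain ⟨C, hC, h⟩ := h
    obtain ⟨C', c', hC', hc', h'⟩ := of_iterated m hm C hC
    rw [q1_iff]
    exact ⟨C', hC', c', hc', fun N hN A hA hα => h' N hN _ _ (log_dens_ge hN A hA hα) (h N hN A hA hα)⟩

end Pool.Agent.Results.MP_169871_nt.EquivalentForms
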