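import Pool.Agent.U463.CB.Ints

/-!
# Q1 does not depend on the moduli

* `Q1On 𝒩 F` is Q1 for the moduli `N ∈ 𝒩` and the sets `A ⊆ ℤ/N` with `N ≥ F(⌈1/α⌉)` only, where `α` is the density
  of `A`.
* `Q1Int` is Q1 for the integers: if `A ⊆ ℤ` has upper Banach density at least `α ∈ (0, 1/2]` then `2A - 2A` contains
  a Bohr set `{x ∈ ℤ : ‖θ_i x‖ ≤ ε for i < d}` with `d ≤ C log (1/α)` and `ε ≥ c / log (1/α)`.

The theorem says that Q1 is equivalent to `Q1Int`, and to `Q1On 𝒩 F` for every infinite set `𝒩` of moduli (for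
example the primes, or the powers of two) and for every function `F`. So Q1 is a question about the sets of integers
of positive density: it may be studied for `N` tending to infinity, along any sequence, with a fixed `α`; and if Q1 is
false, then the counterexamples can be found for moduli in `𝒩` which are arbitrarily large in terms of `1/α`.

Idea of the proof. From `𝒩` to `ℤ`: a segment of `A` of length `N/8` is a subset of `ℤ/N`; the frequencies of the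
Bohr sets have a limit point in the torus. From `ℤ` to `ℤ/N`: let `A ⊆ ℤ/N` and let `Ã ⊆ ℤ` be its preimage. The
projection to `ℤ/N` of a Bohr set in `2Ã - 2Ã` is not a Bohr set, nor a proper progression. But with `ℓ = log (1/α)` and
`K ≥ (2 + ℓ) ^ 10`, the Bohr set with the same frequencies and the radius `ε / (2K)` has a projection `X ⊆ ℤ/N` of
density at least `exp (- O(ℓ log (2 + ℓ)))` with `K X - K X ⊆ 2A - 2A`, and the theorem on iterated sumsets of the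
hand-in `EquivalentForms` gives back a Bohr set in `ℤ/N` with `O(ℓ)` frequencies and radius at least `1 / O(ℓ)`.
-/

set_option autoImplicit false

namespace Pool.Agent.Results.MP_169871_nt.ModulusIndependence

open Pool.Agent.U463.CB

/-- The Bohr set `B(Γ, ε) = {x ∈ ℤ/N : ‖γ x / N‖ ≤ ε for all γ ∈ Γ}`; the norm is the distance to the nearest
integer. -/
def bohr {N : ℕ} (Γ : Finset (ZMod N)) (ε : ℝ) : Set (ZMod N) :=
  {x | ∀ γ ∈ Γ, |((γ * x).val : ℝ) / (N : ℝ) - ((round (((γ * x).val : ℝ) / (N : ℝ)) : ℤ) : ℝ)| ≤ ε}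

/-- The set `2A - 2A` for `A ⊆ ℤ/N`. -/
def twoAMinusTwoA {N : ℕ} (A : Finset (ZMod N)) : Set (ZMod N) :=
  {x | ∃ a₁ ∈ A, ∃ a₂ ∈ A, ∃ a₃ ∈ A, ∃ a₄ ∈ A, x = a₁ + a₂ - a₃ - a₄}

/-- The Bohr set `{x ∈ ℤ : ‖θ_i x‖ ≤ ε for all i}` in the integers. -/
def bohrInt {d : ℕ} (θ : Fin d → ℝ) (ε : ℝ) : Set ℤ :=
  {x | ∀ i, |(x : ℝ) * θ i - ((round ((x : ℝ) * θ i) : ℤ) : ℝ)| ≤ ε}

/-- The set `2A - 2A` for `A ⊆ ℤ`. -/
def twoAMinusTwoAInt (A : Set ℤ) : Set ℤ :=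
  {x | ∃ a₁ ∈ A, ∃ a₂ ∈ A, ∃ a₃ ∈ A, ∃ a₄ ∈ A, x = a₁ + a₂ - a₃ - a₄}

/-- The upper Banach density of `A ⊆ ℤ` is at least `α`: for every `β < α` there are arbitrarily long intervals
`[M, M + L)` with at least `β L` elements of `A`. -/
def UpperDensityAtLeast (A : Set ℤ) (α : ℝ) : Prop :=
  ∀ β : ℝ, β < α → ∀ L₀ : ℕ, ∃ (M : ℤ) (L : ℕ), L₀ ≤ L ∧ 0 < L ∧
    β * L ≤ ((A ∩ Set.Ico M (M + L)).ncard : ℝ)

/-- Question Q1 of the problem (with the definitions `bohr` and `twoAMinusTwoA` it is the frozen statement). -/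
def Q1 : Prop :=
  ∃ C : ℝ, 0 < C ∧ ∃ c : ℝ, 0 < c ∧ ∀ N : ℕ, 0 < N → ∀ A : Finset (ZMod N), A.Nonempty →
    (A.card : ℝ) / (N : ℝ) ≤ 1 / 2 →
    ∃ Γ : Finset (ZMod N), ∃ ε : ℝ, 0 < ε ∧ (Γ.card : ℝ) ≤ C * Real.log ((N : ℝ) / (A.card : ℝ)) ∧
      c / Real.log ((N : ℝ) / (A.card : ℝ)) ≤ ε ∧ bohr Γ ε ⊆ twoAMinusTwoA A

/-- Q1 for the moduli `N ∈ 𝒩` and the sets `A` with `N ≥ F(⌈N / |A|⌉)` only. -/
def Q1On (𝒩 : Set ℕ) (F : ℕ → ℕ) : Prop :=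
  ∃ C : ℝ, 0 < C ∧ ∃ c : ℝ, 0 < c ∧ ∀ N ∈ 𝒩, 0 < N → ∀ A : Finset (ZMod N), A.Nonempty →
    (A.card : ℝ) / (N : ℝ) ≤ 1 / 2 → F ⌈(N : ℝ) / (A.card : ℝ)⌉₊ ≤ N →
    ∃ Γ : Finset (ZMod N), ∃ ε : ℝ, 0 < ε ∧ (Γ.card : ℝ) ≤ C * Real.log ((N : ℝ) / (A.card : ℝ)) ∧
      c / Real.log ((N : ℝ) / (A.card : ℝ)) ≤ ε ∧ bohr Γ ε ⊆ twoAMinusTwoA A

/-- Q1 for the integers. -/
def Q1Int : Prop :=
  ∃ C : ℝ, 0 < C ∧ ∃ c : ℝ, 0 < c ∧ ∀ α : ℝ, 0 < α → α ≤ 1 / 2 → ∀ A : Set ℤ, UpperDensityAtLeast A α →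
    ∃ (d : ℕ) (θ : Fin d → ℝ) (ε : ℝ), 0 < ε ∧ (d : ℝ) ≤ C * Real.log (1 / α) ∧
      c / Real.log (1 / α) ≤ ε ∧ bohrInt θ ε ⊆ twoAMinusTwoAInt A

theorem int_of_on (𝒩 : Set ℕ) (h𝒩 : 𝒩.Infinite) (F : ℕ → ℕ) (h : Q1On 𝒩 F) : Q1Int := by
  obtain ⟨C, hC, c, hc, h⟩ := h
  refine ⟨6 * C, by positivity, c / 12, by positivity, fun α hα0 hα A hA => ?_⟩
  obtain ⟨d, θ, ε, h1, h2, h3, h4⟩ := int_of_cyclic 𝒩 h𝒩 F C c hC hc (fun N hN hN0 A' h1 h2 h3 => by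
    obtain ⟨Γ, ε, g1, g2, g3, g4⟩ := h N hN hN0 A' h1 h2 h3
    exact ⟨Γ, ε, g1, g2, g3, fun x hx => g4 fun g hg => hx g hg⟩) A α hα0 hα hA
  exact ⟨d, θ, ε, h1, h2, h3, fun x hx => h4 x hx⟩

theorem q1_of_int (h : Q1Int) : Q1 := by
  obtain ⟨C, hC, c, hc, h⟩ := h
  have hlog2 := Real.log_two_gt_d9
  have hu : 0 < Real.log (8 + 1 / (c / 4)) / Real.log 2 := by
    have : 0 < 1 / (c / 4) := by positivity
    exact div_pos (Real.log_pos (by linarith)) (by linarith)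
  obtain ⟨C₁, hC₁⟩ : ∃ C₁ : ℝ, C₁ = C * (((1 + 10 : ℕ) : ℝ) + Real.log (8 + 1 / (c / 4)) / Real.log 2) := ⟨_, rfl⟩
  have hC₁0 : 0 < C₁ := by
    rw [hC₁]; exact mul_pos hC (add_pos_of_nonneg_of_pos (Nat.cast_nonneg _) hu)
  obtain ⟨C', c', hC', hc', h'⟩ := iter_to_bohr_one 10 le_rfl C₁ hC₁0
  refine ⟨C', hC', c', hc', fun N hN A hA hα => ?_⟩
  have : NeZero N := ⟨hN.ne'⟩
  have hNpos : (0 : ℝ) < N := by exact_mod_cast hN
  have hApos : (0 : ℝ) < A.card := by exact_mod_cast hA.card_pos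
  obtain ⟨l, hl⟩ : ∃ l : ℝ, l = Real.log ((N : ℝ) / (A.card : ℝ)) := ⟨_, rfl⟩
  have h2 : (2 : ℝ) ≤ (N : ℝ) / (A.card : ℝ) := by
    rw [div_le_iff₀ hNpos] at hα
    rw [le_div_iff₀ hApos]
    linarith
  have hl2 : Real.log 2 ≤ l := by rw [hl]; exact Real.log_le_log (by norm_num) h2
  rw [← hl]
  obtain ⟨At, hAt⟩ : ∃ At : Set ℤ, At = {x : ℤ | (x : ZMod N) ∈ A} := ⟨_, rfl⟩
  have hdens : UpperDensityAtLeast At ((A.card : ℝ) / N) := by
    intro β hβ L₀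
    refine ⟨0, N * (L₀ + 1), by nlinarith, by positivity, ?_⟩
    -- the number of elements of `At` in `[0, N k)` is `k |A|`
    obtain ⟨f, hf⟩ : ∃ f : ZMod N × ℕ → ℤ, f = fun p => (p.1.val : ℤ) + N * p.2 := ⟨_, rfl⟩
    have h3 : ((A ×ˢ Finset.range (L₀ + 1)).image f : Set ℤ) ⊆ At ∩ Set.Ico 0 (0 + ((N * (L₀ + 1) : ℕ) : ℤ)) := by
      intro x hx
      rw [Finset.mem_coe, Finset.mem_image] at hx
      obtain ⟨⟨a, k⟩, hak, rfl⟩ := hx
      rw [Finset.mem_product, Finset.mem_range] at hak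
      rw [hf]
      simp only
      have hv := ZMod.val_lt a
      refine ⟨?_, ?_, ?_⟩
      · rw [hAt]
        show (((a.val : ℤ) + N * k : ℤ) : ZMod N) ∈ A
        push_cast
        simpa using hak.1
      · positivity
      · have h5 : k + 1 ≤ L₀ + 1 := hak.2
        have h6 : a.val + N * k < N * (L₀ + 1) := by nlinarith
        rw [zero_add]
        exact_mod_cast h6
    have h4 : ((A ×ˢ Finset.range (L₀ + 1)).image f).card = A.card * (L₀ + 1) := by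
      rw [Finset.card_image_of_injective, Finset.card_product, Finset.card_range]
      rintro ⟨a, k⟩ ⟨b, j⟩ hab
      rw [hf] at hab
      simp only at hab
      have hva := ZMod.val_lt a
      have hvb := ZMod.val_lt b
      have hab' : a.val + N * k = b.val + N * j := by exact_mod_cast hab
      have h5 : k = j := by
        have e1 : (a.val + N * k) / N = k := by
          rw [Nat.add_mul_div_left _ _ hN, Nat.div_eq_of_lt hva, zero_add]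
        have e2 : (b.val + N * j) / N = j := by
          rw [Nat.add_mul_div_left _ _ hN, Nat.div_eq_of_lt hvb, zero_add]
        rw [← e1, ← e2, hab']
      subst h5
      have h6 : a.val = b.val := by omega
      rw [ZMod.val_injective N h6]
    have h5 := Set.ncard_le_ncard h3 ((Set.finite_Ico _ _).subset Set.inter_subset_right)
    rw [Set.ncard_coe_finset, h4] at h5
    have h6 : ((A.card * (L₀ + 1) : ℕ) : ℝ) ≤ ((At ∩ Set.Ico 0 (0 + ((N * (L₀ + 1) : ℕ) : ℤ))).ncard : ℝ) := by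
      exact_mod_cast h5
    refine le_trans ?_ h6
    push_cast
    have h7 : β * (N * ((L₀ : ℝ) + 1)) ≤ (A.card : ℝ) / N * (N * ((L₀ : ℝ) + 1)) :=
      mul_le_mul_of_nonneg_right hβ.le (by positivity)
    refine h7.trans (le_of_eq ?_)
    field_simp
  obtain ⟨d, θ, ε, g1, g2, g3, g4⟩ := h ((A.card : ℝ) / N) (by positivity) hα At hdens
  have hl' : Real.log (1 / ((A.card : ℝ) / N)) = l := by rw [hl, one_div_div]
  rw [hl'] at g2 g3
  obtain ⟨X, K, k1, k2, k3, k4⟩ := iter_of_int A 10 C c l hC hc hl2 d θ ε g2 g3 (fun x hx => by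
    obtain ⟨a₁, e1, a₂, e2, a₃, e3, a₄, e4, e5⟩ := g4 (show x ∈ bohrInt θ ε from hx)
    rw [hAt] at e1 e2 e3 e4
    exact ⟨a₁, a₂, a₃, a₄, e1, e2, e3, e4, e5⟩)
  rw [← hC₁] at k2
  obtain ⟨Γ, ε', b1, b2, b3, b4⟩ := h' N X K l hl2 k1 k2 k3
  exact ⟨Γ, ε', b1, b2, b3, fun x hx => k4 x (b4 x fun g hg => hx g hg)⟩

/-- **Q1 does not depend on the moduli.** Q1 is equivalent to Q1 for the integers, and, for every infinite set `𝒩` of
moduli and every function `F`, to Q1 for the moduli `N ∈ 𝒩` and the sets `A ⊆ ℤ/N` with `N ≥ F(⌈N / |A|⌉)` only. -/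
theorem result :
    (Q1 ↔ Q1Int) ∧
    (∀ 𝒩 : Set ℕ, 𝒩.Infinite → ∀ F : ℕ → ℕ, (Q1 ↔ Q1On 𝒩 F)) := by
  have h1 : ∀ (𝒩 : Set ℕ) (F : ℕ → ℕ), Q1 → Q1On 𝒩 F := by
    rintro 𝒩 F ⟨C, hC, c, hc, h⟩
    exact ⟨C, hC, c, hc, fun N _ hN A hA hα _ => h N hN A hA hα⟩
  exact ⟨⟨fun h => int_of_on Set.univ Set.infinite_univ (fun _ => 0) (h1 _ _ h), q1_of_int⟩,
    fun 𝒩 h𝒩 F => ⟨h1 𝒩 F, fun h => q1_of_int (int_of_on 𝒩 h𝒩 F h)⟩⟩

end Pool.Agent.Results.MP_169871_nt.ModulusIndependence
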