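import Pool.Agent.U33.SB.Fin

/-!
# Q1 for dense subsets of Fourier-uniform (possibly very sparse) sets

Let `A₀ ⊆ B ⊆ ℤ/N`, `D = |B| / |A₀|`, `α₀ = |A₀| / N`. Write `B^(r) = ∑_{b ∈ B} e(r b / N)`.

1. If the sum of the `|B^(r)|` that are larger than `|A₀|² / (4 N)` is at most `K |B|`, then `2A₀ - 2A₀` contains a Bohr
   set with at most `4 K² D²` frequencies and radius `1/4`, whatever the density of `B` is.
2. If `|B^(r)| ≤ |A₀|² / (4 N)` for all `r ≠ 0` (`B` is uniform for `A₀`) and `4 √D log (2D) ≤ log (1/α₀)`, there is one with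
   at most `4 D log (2D)` frequencies and radius `1 / (16 D log (2D))`.
3. Hence the conclusion of Q1 holds for every `A` for which there is a set `B` that is uniform for `A ∩ B` with
   `D log (2D) ≤ E log (1/α)`.
4. If `N` is prime and `B` is mapped to itself by `x ↦ h x + t_h` for all `h` in a set `H` of nonzero residues with
   `|H| |A₀|⁴ ≥ 16 N³ |B|` then `B` is uniform for `A₀`.

The proof. Step 1: for all weights `w` one has
`|∑ w_r A₀^(r)|² ≤ |A₀| ∑_{b ∈ B} |∑ w_r e(r b / N)|² ≤ |A₀| (K |B| ∑ |w_r|² + τ (∑ |w_r|)²)`, `τ = |A₀|² / (4 N)` (`dual`). With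
`w_r = |A₀^(r)|² conj (A₀^(r))` off the large spectrum this bounds the rest of the fourth moment by `3/4 |A₀|⁴` (`tail`),
with `w_r = conj (A₀^(r))` on it this bounds the size of the spectrum (`spec_card`). Step 2: Chang's theorem relative to
`B`, by Riesz products over `B` (`chang_card`, with the Riesz product lemma `SS_dis` of the starting library).
-/

set_option autoImplicit false

namespace Pool.Agent.Results.MP_169871_nt.SparseBogolyubov

open Pool.Agent.U33.SB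

/-- The Bohr set `B(Γ, ε) = {x ∈ ℤ/N : ‖γ x / N‖ ≤ ε for all γ ∈ Γ}`; the norm is the distance to the nearest
integer. -/
def bohr {N : ℕ} (Γ : Finset (ZMod N)) (ε : ℝ) : Set (ZMod N) :=
  {x | ∀ γ ∈ Γ, |((γ * x).val : ℝ) / (N : ℝ) - ((round (((γ * x).val : ℝ) / (N : ℝ)) : ℤ) : ℝ)| ≤ ε}

/-- The set `2A - 2A`. -/
def twoAMinusTwoA {N : ℕ} (A : Finset (ZMod N)) : Set (ZMod N) :=
  {x | ∃ a₁ ∈ A, ∃ a₂ ∈ A, ∃ a₃ ∈ A, ∃ a₄ ∈ A, x = a₁ + a₂ - a₃ - a₄}

/-- `log (1/α)` for the density `α = |A| / N` -/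
noncomputable def ell {N : ℕ} (A : Finset (ZMod N)) : ℝ := Real.log ((N : ℝ) / (A.card : ℝ))

/-- The absolute value of the Fourier coefficient `∑_{b ∈ B} exp (2 π i r b / N)` of `B`. -/
noncomputable def fourierAbs {N : ℕ} (B : Finset (ZMod N)) (r : ZMod N) : ℝ :=
  ‖∑ b ∈ B, Complex.exp (2 * Real.pi * Complex.I * ((r * b).val : ℂ) / (N : ℂ))‖

/-- The sum of the Fourier coefficients `|B^(r)|` that are larger than `τ`. -/
noncomputable def largeSum {N : ℕ} (B : Finset (ZMod N)) (τ : ℝ) : ℝ :=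
  ∑ᶠ r : {r : ZMod N // τ < fourierAbs B r}, fourierAbs B r.1

/-- All the nontrivial Fourier coefficients of `B` are at most `m² / (4 N)`. -/
def UniformFor {N : ℕ} (B : Finset (ZMod N)) (m : ℝ) : Prop :=
  ∀ r : ZMod N, r ≠ 0 → fourierAbs B r ≤ m ^ 2 / (4 * N)

theorem fourierAbs_eq {N : ℕ} [NeZero N] (B : Finset (ZMod N)) (r : ZMod N) : fourierAbs B r = ‖FF B r‖ := by
  unfold fourierAbs FF
  congr 1
  refine Finset.sum_congr rfl fun b _ => ?_
  rw [ZMod.stdAddChar_apply, ZMod.toCircle_apply]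

theorem largeSum_eq {N : ℕ} [NeZero N] (B : Finset (ZMod N)) (τ : ℝ) :
    largeSum B τ = ∑ t ∈ Finset.univ.filter (fun t => τ < ‖FF B t‖), ‖FF B t‖ := by
  classical
  unfold largeSum
  rw [finsum_eq_sum_of_fintype]
  rw [Finset.sum_subtype (Finset.univ.filter (fun t => τ < ‖FF B t‖))
    (p := fun t => τ < fourierAbs B t) (fun t => by simp [fourierAbs_eq]) (fun t => ‖FF B t‖)]
  exact Finset.sum_congr rfl fun t _ => fourierAbs_eq B t.1

/-- **Q1 for dense subsets of Fourier-uniform sets.** -/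
theorem result :
    (∀ N : ℕ, 0 < N → ∀ A B : Finset (ZMod N), A.Nonempty → A ⊆ B → ∀ K : ℝ, 1 ≤ K →
      largeSum B ((A.card : ℝ) ^ 2 / (4 * N)) ≤ K * B.card →
      ∃ Γ : Finset (ZMod N), (Γ.card : ℝ) ≤ 4 * K ^ 2 * ((B.card : ℝ) / A.card) ^ 2 ∧
        bohr Γ (1 / 4) ⊆ twoAMinusTwoA A) ∧
    (∀ N : ℕ, 0 < N → ∀ A B : Finset (ZMod N), A.Nonempty → A ⊆ B → UniformFor B A.card →
      ∀ D : ℝ, D = (B.card : ℝ) / A.card → 4 * Real.sqrt D * Real.log (2 * D) ≤ ell A →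
      ∃ Γ : Finset (ZMod N), (Γ.card : ℝ) ≤ 4 * D * Real.log (2 * D) ∧
        bohr Γ (1 / (16 * D * Real.log (2 * D))) ⊆ twoAMinusTwoA A) ∧
    (∀ E : ℝ, 1 ≤ E → ∃ C : ℝ, 0 < C ∧ ∃ c : ℝ, 0 < c ∧ ∀ N : ℕ, 0 < N → ∀ A B : Finset (ZMod N),
      (A ∩ B).Nonempty → (A.card : ℝ) / (N : ℝ) ≤ 1 / 2 → UniformFor B (A ∩ B).card →
      (B.card : ℝ) / (A ∩ B).card * Real.log (2 * ((B.card : ℝ) / (A ∩ B).card)) ≤ E * ell A →
      ∃ (Γ : Finset (ZMod N)) (ε : ℝ), (Γ.card : ℝ) ≤ C * ell A ∧ c / ell A ≤ ε ∧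
        bohr Γ ε ⊆ twoAMinusTwoA A) ∧
    (∀ N : ℕ, N.Prime → ∀ B H : Finset (ZMod N), (∀ h ∈ H, h ≠ 0) →
      (∀ h ∈ H, ∃ t : ZMod N, ∀ b : ZMod N, b ∈ B ↔ h * b + t ∈ B) → ∀ m : ℝ, 0 ≤ m →
      16 * (N : ℝ) ^ 3 * B.card ≤ H.card * m ^ 4 → UniformFor B m) := by
  refine ⟨?_, ?_, ?_, ?_⟩
  · intro N hN A B hA hAB K hK1 hK
    have : NeZero N := ⟨hN.ne'⟩
    rw [largeSum_eq] at hK
    obtain ⟨Γ, h1, h2⟩ := part_one A B hAB hA K hK1 hK
    exact ⟨Γ, h1, fun x hx => h2 x fun γ hγ => hx γ hγ⟩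
  · intro N hN A B hA hAB hU D hD hx
    have : NeZero N := ⟨hN.ne'⟩
    obtain ⟨Γ, h1, h2⟩ := part_two A B hAB hA (fun c hc => by rw [← fourierAbs_eq]; exact hU c hc) D hD hx
    exact ⟨Γ, h1, fun x hx => h2 x fun γ hγ => hx γ hγ⟩
  · intro E hE
    refine ⟨2048 * E ^ 4, by positivity, 1 / (16 * E), by positivity, ?_⟩
    intro N hN A B hne hα hU hDE
    have : NeZero N := ⟨hN.ne'⟩
    have hNpos : (0 : ℝ) < N := by exact_mod_cast hN
    obtain ⟨A', hA'⟩ : ∃ A' : Finset (ZMod N), A' = A ∩ B := ⟨_, rfl⟩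
    rw [← hA'] at hne hU hDE
    have hA'A : A' ⊆ A := by rw [hA']; exact Finset.inter_subset_left
    have hA'B : A' ⊆ B := by rw [hA']; exact Finset.inter_subset_right
    have hsub : twoAMinusTwoA A' ⊆ twoAMinusTwoA A := by
      rintro x ⟨a, ha, b, hb, c, hc, d, hd, h⟩
      exact ⟨a, hA'A ha, b, hA'A hb, c, hA'A hc, d, hA'A hd, h⟩
    have hAc' : (0 : ℝ) < A'.card := by exact_mod_cast hne.card_pos
    have hAc : (0 : ℝ) < A.card := by exact_mod_cast (hne.mono hA'A).card_pos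
    have hAA : (A'.card : ℝ) ≤ A.card := by exact_mod_cast Finset.card_le_card hA'A
    have hABc : (A'.card : ℝ) ≤ B.card := by exact_mod_cast Finset.card_le_card hA'B
    have hlog2 := Real.log_two_gt_d9
    have hx2 : Real.log 2 ≤ ell A := by
      unfold ell
      apply Real.log_le_log (by norm_num)
      rw [div_le_iff₀ hNpos] at hα
      rw [le_div_iff₀ hAc]
      linarith
    have hxx : ell A ≤ ell A' := by
      unfold ell
      exact Real.log_le_log (by positivity) (div_le_div_of_nonneg_left hNpos.le hAc' hAA)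
    have hx0 : 0 < ell A := by linarith
    obtain ⟨D, hD⟩ : ∃ D : ℝ, D = (B.card : ℝ) / A'.card := ⟨_, rfl⟩
    rw [← hD] at hDE
    have hD1 : 1 ≤ D := by rw [hD, le_div_iff₀ hAc']; linarith
    have hD0 : 0 < D := by linarith
    have hL : Real.log 2 ≤ Real.log (2 * D) := Real.log_le_log (by norm_num) (by linarith)
    have hL0 : 0 < Real.log (2 * D) := by linarith
    have hE1 : 1 ≤ E ^ 4 := one_le_pow₀ hE
    have hU' : ∀ c : ZMod N, c ≠ 0 → ‖FF B c‖ ≤ (A'.card : ℝ) ^ 2 / (4 * N) :=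
      fun c hc => by rw [← fourierAbs_eq]; exact hU c hc
    rcases le_or_gt (4 * Real.sqrt D * Real.log (2 * D)) (ell A') with hc | hc
    · obtain ⟨Γ, h1, h2⟩ := part_two A' B hA'B hne hU' D hD hc
      refine ⟨Γ, 1 / (16 * D * Real.log (2 * D)), ?_, ?_, fun x hx => hsub (h2 x fun γ hγ => hx γ hγ)⟩
      · have h3 : E * ell A ≤ E ^ 4 * ell A := by
          apply mul_le_mul_of_nonneg_right _ hx0.le
          calc E = E ^ 1 := (pow_one E).symm
            _ ≤ E ^ 4 := pow_le_pow_right₀ hE (by norm_num)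
        have h4 : 0 ≤ E ^ 4 * ell A := by positivity
        nlinarith
      · rw [div_div]
        apply one_div_le_one_div_of_le (by positivity)
        nlinarith
    · have h5 : Real.sqrt D < 4 * E := by
        by_contra hcon
        push Not at hcon
        have h6 : Real.sqrt D * Real.sqrt D = D := Real.mul_self_sqrt hD0.le
        have h7 : 0 < Real.sqrt D := Real.sqrt_pos.2 hD0
        have h8 : 4 * E * Real.sqrt D ≤ D := by nlinarith
        have h9 : 4 * E * Real.sqrt D * Real.log (2 * D) ≤ D * Real.log (2 * D) :=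
          mul_le_mul_of_nonneg_right h8 hL0.le
        have h10 : E * ell A ≤ E * ell A' := mul_le_mul_of_nonneg_left hxx (by linarith)
        have h11 : E * ell A' < E * (4 * Real.sqrt D * Real.log (2 * D)) :=
          mul_lt_mul_of_pos_left hc (by linarith)
        nlinarith
      have h6 : Real.sqrt D * Real.sqrt D = D := Real.mul_self_sqrt hD0.le
      have h7 : 0 ≤ Real.sqrt D := Real.sqrt_nonneg D
      have hD16 : D ≤ 16 * E ^ 2 := by nlinarith
      obtain ⟨Γ, h1, h2⟩ := part_one A' B hA'B hne 1 le_rfl (uni_hyp A' B hU')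
      refine ⟨Γ, 1 / 4, ?_, ?_, fun x hx => hsub (h2 x fun γ hγ => hx γ hγ)⟩
      · rw [← hD] at h1
        have h8 : D ^ 2 ≤ (16 * E ^ 2) ^ 2 := pow_le_pow_left₀ hD0.le hD16 2
        have h9 : (16 * E ^ 2) ^ 2 = 256 * E ^ 4 := by ring
        rw [h9] at h8
        have h10 : E ^ 4 * (1 / 2) ≤ E ^ 4 * ell A := mul_le_mul_of_nonneg_left (by linarith) (by positivity)
        nlinarith
      · rw [div_le_iff₀ hx0, div_le_iff₀ (by positivity)]
        nlinarith
  · intro N hN B H h0 hH m hm0 hm r hr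
    have : NeZero N := ⟨hN.ne_zero⟩
    rw [fourierAbs_eq]
    exact affine_uniform hN B H hH m hm hm0 r hr h0

end Pool.Agent.Results.MP_169871_nt.SparseBogolyubov
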