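import Pool.Agent.U546.TS.Fin3

/-!
# Q1 for dense subsets of sets with many almost periods, or of small VC-dimension

Let `A ⊆ ℤ/N` have density `α ≤ 1/2`, `x = log (1/α)`. Let `B` be a set of which `A` contains a proportion `δ`, and let
`D ≥ 1`. Suppose that `B` is tame in one of two senses: at least `α ^ D N` of the `t` move at most `τ |B|` elements of
`B` out of `B`, where `τ = δ³ / (C (D x) ^ 12)`; or the translates of `B` shatter no set of more than `D` elements (and
`|B| / N`, `δ`, `1/D` are at least `α ^ E`). Then `2A - 2A` contains a Bohr set of radius at least `1 / (C x)` with at most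
`C (D log (2 + D) x / log (2 + x) + log⁴ (2/δ) (1 + log (2/δ) / log (2 + x)))` frequencies. So the conclusion of Q1 holds
for all these `A` if `D log (2 + D) = O(log (2 + x))` and `log⁵ (2/δ) = O(x log (2 + x))`.

The proof. Let `P(τ)` be the set of the `t` with `|{b ∈ B : b + t ∉ B}| ≤ τ |B|`; `P(σ) + P(τ) ⊆ P(σ + τ)`.
* By Haussler's packing lemma (starting library) the second hypothesis implies the first one.
* `Per`: as `|P(τ)| ≥ α ^ D N` there are regular scales, `|P(s + g)| ≤ (1 + η) |P(s)|`, at polynomial distances.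
* `Comb.pick`: a translate `z + P(s)` contains `δ/2 |P(s)|` elements of `A ∩ B`; these form `A₂`, and
  `|A₂ + P(s')| ≤ (4/δ) |A₂|` for a smaller scale `s'`.
* `CS`, `AP`: the Croot-Sisask argument with the sample in `A₂`, the shifts in `P(s')` and, since neither the doubling
  of `B` nor that of `A` is controlled, with the domain restricted to `B`; the elements that leave `B` are few as long as
  all the shifts are almost periods. It gives a large `T ⊆ P(s')` such that the convolution of `A ∩ B`, `A₂` and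
  `(A ∩ B + A₂) ∩ (z + B)` is almost invariant under `T - T` at all points that are almost periods.
* `FOU`: if the characters with a mean at least `1/2` over `T` are near `1` at an almost period `y` then
  `y ∈ 2A - 2A`.
* A local form of Chang's theorem (starting library) with the regular sets `P(s')`, `P(s'')`: these characters are spanned
  by `O(log⁴ (2/δ))` ones and the characters with mean at least `1/2` over `P(s'')`, which are almost constant on a
  smaller `P(s''')` (`Spec.spec_small`).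
* `P(s''')` contains `K P(τ) - K P(τ)` for a polynomially large `K`, and so a Bohr set with
  `O(D log (2 + D) x / log (2 + x))` frequencies and radius `≥ 1 / (C x)` (the theorem of the starting hand-in `ManySummands`,
  `Spec.bohrQ`).
-/

set_option autoImplicit false

namespace Pool.Agent.Results.MP_169871_nt.TameSets

/-- The Bohr set `B(Γ, ε) = {x ∈ ℤ/N : ‖γ x / N‖ ≤ ε for all γ ∈ Γ}`; the norm is the distance to the nearest
integer. -/
def bohr {N : ℕ} (Γ : Finset (ZMod N)) (ε : ℝ) : Set (ZMod N) :=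
  {x | ∀ γ ∈ Γ, |((γ * x).val : ℝ) / (N : ℝ) - ((round (((γ * x).val : ℝ) / (N : ℝ)) : ℤ) : ℝ)| ≤ ε}

/-- The set `2A - 2A`. -/
def twoAMinusTwoA {N : ℕ} (A : Finset (ZMod N)) : Set (ZMod N) :=
  {x | ∃ a₁ ∈ A, ∃ a₂ ∈ A, ∃ a₃ ∈ A, ∃ a₄ ∈ A, x = a₁ + a₂ - a₃ - a₄}

/-- `log (1/α)` for the density `α = |A| / N` -/
noncomputable def ell {N : ℕ} (A : Finset (ZMod N)) : ℝ := Real.log ((N : ℝ) / (A.card : ℝ))

/-- The number of the `t ∈ ℤ/N` with `|{b ∈ B : b + t ∉ B}| ≤ τ |B|`, the `τ`-almost periods of `B`. -/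
noncomputable def numPeriods {N : ℕ} (B : Finset (ZMod N)) (τ : ℝ) : ℕ :=
  Nat.card {t : ZMod N // ((B.filter fun b => b + t ∉ B).card : ℝ) ≤ τ * (B.card : ℝ)}

/-- The translates of `B` shatter `S`: every subset of `S` is the intersection of `S` with a translate of `B`. -/
def Shattered {N : ℕ} (B S : Finset (ZMod N)) : Prop :=
  ∀ T ⊆ S, ∃ t : ZMod N, ∀ s ∈ S, (s ∈ T ↔ s + t ∈ B)

open Pool.Agent.U546.TS

theorem numPeriods_eq {N : ℕ} [NeZero N] (B : Finset (ZMod N)) (τ : ℝ) : numPeriods B τ = (PP B τ).card := by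
  classical
  unfold numPeriods
  rw [Nat.card_eq_fintype_card, Fintype.card_subtype]
  congr 1

/-- **Q1 for dense subsets of tame sets.** -/
theorem result : ∀ E : ℝ, 1 ≤ E → ∃ C : ℝ, 0 < C ∧ ∀ N : ℕ, 0 < N → ∀ A B : Finset (ZMod N),
    A.Nonempty → (A.card : ℝ) / (N : ℝ) ≤ 1 / 2 → B.Nonempty → ∀ δ D : ℝ, 0 < δ → δ ≤ 1 → 1 ≤ D →
    δ * (B.card : ℝ) ≤ ((A ∩ B).card : ℝ) →
    (Real.exp (-(D * ell A)) * (N : ℝ) ≤ (numPeriods B (δ ^ 3 / (C * (D * ell A) ^ 12)) : ℝ) ∨
      ((∀ S : Finset (ZMod N), Shattered B S → (S.card : ℝ) ≤ D) ∧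
        Real.exp (-(E * ell A)) ≤ (B.card : ℝ) / (N : ℝ) ∧ Real.exp (-(E * ell A)) ≤ δ ∧
        Real.exp (-(E * ell A)) ≤ 1 / D)) →
    ∃ (Γ : Finset (ZMod N)) (ε : ℝ),
      (Γ.card : ℝ) ≤ C * (D * Real.log (2 + D) * (ell A / Real.log (2 + ell A)) +
        Real.log (2 / δ) ^ 4 * (1 + Real.log (2 / δ) / Real.log (2 + ell A))) ∧
      1 / (C * ell A) ≤ ε ∧ bohr Γ ε ⊆ twoAMinusTwoA A := by
  intro E hE
  obtain ⟨C₁, hC₁, h₁⟩ := main2
  obtain ⟨C₂, hC₂, h₂⟩ := main3 E hE
  refine ⟨C₁ + C₂, by linarith, ?_⟩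
  intro N hN A B hA hα hB δ D hδ hδ1 hD hδB hT
  have : NeZero N := ⟨hN.ne'⟩
  have hAc : (0 : ℝ) < A.card := by exact_mod_cast hA.card_pos
  have hBc : (0 : ℝ) < B.card := by exact_mod_cast hB.card_pos
  have hNpos : (0 : ℝ) < N := by exact_mod_cast hN
  have hlog2 := Real.log_two_gt_d9
  have hx2 : Real.log 2 ≤ ell A := by
    unfold ell
    apply Real.log_le_log (by norm_num)
    rw [div_le_iff₀ hNpos] at hα
    rw [le_div_iff₀ hAc]
    linarith
  have hx0 : 0 < ell A := by linarith
  have hfil : (A.filter fun a => a ∈ B) = A ∩ B := Finset.filter_mem_eq_inter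
  have hL0 : 0 < Real.log (2 / δ) := Real.log_pos (by rw [lt_div_iff₀ hδ]; linarith)
  have hlx : 0 < Real.log (2 + ell A) := Real.log_pos (by linarith)
  have hlD : 0 ≤ Real.log (2 + D) := Real.log_nonneg (by linarith)
  have hF0 : 0 ≤ D * Real.log (2 + D) * (ell A / Real.log (2 + ell A)) := by positivity
  have hG0 : 0 ≤ Real.log (2 / δ) ^ 4 * (1 + Real.log (2 / δ) / Real.log (2 + ell A)) := by positivity
  rcases hT with hT | ⟨hV, hBE, hδE, hDE⟩
  · obtain ⟨Γ, ε, g1, g2, g3⟩ := h₁ N A B δ D hA hα hB hδ hδ1 (by rw [hfil]; exact hδB) hD (by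
      rw [numPeriods_eq] at hT
      rw [Real.exp_neg, inv_mul_eq_div, div_le_iff₀ (Real.exp_pos _)] at hT
      refine hT.trans ?_
      rw [mul_comm]
      apply mul_le_mul_of_nonneg_left _ (Real.exp_pos _).le
      have : PP B (δ ^ 3 / ((C₁ + C₂) * (D * ell A) ^ 12)) ⊆ PP B (δ ^ 3 / (C₁ * (D * ell A) ^ 12)) := by
        apply mono_PP
        apply div_le_div_of_nonneg_left (by positivity) (by positivity)
        have : 0 ≤ C₂ * (D * ell A) ^ 12 := by positivity
        linarith
      exact_mod_cast Finset.card_le_card this)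
    refine ⟨Γ, ε, g1.trans ?_, le_trans ?_ g2, fun y hy => g3 y hy⟩
    · apply mul_le_mul_of_nonneg_right _ (by
        have := add_nonneg hF0 hG0
        exact this)
      linarith
    · apply one_div_le_one_div_of_le (by positivity)
      have : 0 ≤ C₂ * ell A := by positivity
      show C₁ * ell A ≤ (C₁ + C₂) * ell A
      linarith
  · obtain ⟨d, hd⟩ : ∃ d : ℕ, d = ⌊D⌋₊ := ⟨_, rfl⟩
    have hdD : (d : ℝ) ≤ D := by rw [hd]; exact Nat.floor_le (by linarith)
    have hd1 : 1 ≤ d := by rw [hd]; exact Nat.le_floor (by exact_mod_cast hD)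
    have hd1R : (1 : ℝ) ≤ d := by exact_mod_cast hd1
    have hexp : ∀ y : ℝ, Real.exp (-(E * ell A)) ≤ y → 1 ≤ Real.exp (E * ell A) * y := by
      intro y hy
      have h1 : Real.exp (E * ell A) * Real.exp (-(E * ell A)) ≤ Real.exp (E * ell A) * y :=
        mul_le_mul_of_nonneg_left hy (Real.exp_pos _).le
      rwa [← Real.exp_add, add_neg_cancel, Real.exp_zero] at h1
    obtain ⟨Γ, ε, g1, g2, g3⟩ := h₂ N A B δ d hA hα hB (fun S hS => by
        rw [hd]
        exact Nat.le_floor (hV S hS)) hd1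
      (by
        have h3 := hexp _ hDE
        rw [mul_one_div, le_div_iff₀ (by linarith)] at h3
        show (d : ℝ) ≤ Real.exp (E * ell A)
        linarith)
      (by
        have h3 := hexp _ hBE
        rw [← mul_div_assoc, le_div_iff₀ hNpos] at h3
        show (N : ℝ) ≤ Real.exp (E * ell A) * B.card
        linarith) hδ hδ1 (hexp _ hδE) (by rw [hfil]; exact hδB)
    refine ⟨Γ, ε, g1.trans ?_, le_trans ?_ g2, fun y hy => g3 y hy⟩
    · have e1 : (d : ℝ) * Real.log (1 + d) ≤ D * Real.log (2 + D) := by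
        have h4 : Real.log (1 + (d : ℝ)) ≤ Real.log (2 + D) := Real.log_le_log (by linarith) (by linarith)
        have h5 : 0 ≤ Real.log (1 + (d : ℝ)) := Real.log_nonneg (by linarith)
        exact mul_le_mul hdD h4 h5 (by linarith)
      have e2 : (d : ℝ) * Real.log (1 + d) * (ell A / Real.log (2 + ell A)) ≤
          D * Real.log (2 + D) * (ell A / Real.log (2 + ell A)) :=
        mul_le_mul_of_nonneg_right e1 (by positivity)
      have e3 : C₂ * (d * Real.log (1 + d) * (ell A / Real.log (2 + ell A)) +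
          Real.log (2 / δ) ^ 4 * (1 + Real.log (2 / δ) / Real.log (2 + ell A))) ≤
          C₂ * (D * Real.log (2 + D) * (ell A / Real.log (2 + ell A)) +
          Real.log (2 / δ) ^ 4 * (1 + Real.log (2 / δ) / Real.log (2 + ell A))) :=
        mul_le_mul_of_nonneg_left (by linarith) (by linarith)
      refine e3.trans ?_
      apply mul_le_mul_of_nonneg_right _ (add_nonneg hF0 hG0)
      linarith
    · apply one_div_le_one_div_of_le (by positivity)
      have : 0 ≤ C₁ * ell A := by positivity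
      show C₂ * ell A ≤ (C₁ + C₂) * ell A
      linarith

end Pool.Agent.Results.MP_169871_nt.TameSets
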